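import Mathlib
import Pool.Agent.H8.Mich

set_option autoImplicit false

namespace Pool.Agent.Results.MP_dfc365_gt.CH

open Set Filter Topology Function TopologicalSpace Pool.Agent.H8.Mich

/-- `C_p(X)`: continuous real functions with the topology of pointwise convergence -/
abbrev Cp (X : Type) [TopologicalSpace X] : Type := {f : X → ℝ // Continuous f}

theorem result (h : Cardinal.continuum.{0} = Cardinal.aleph 1) :
    ∃ (X : Type) (_ : TopologicalSpace X), T35Space X ∧ SeparableSpace (Cp X) ∧
      FrechetUrysohnSpace (Cp X) ∧ ∃ Y : Set (Cp X), ¬ SeparableSpace Y := by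
  classical
  obtain ⟨r, x, wo, hseg, hx⟩ := tower h
  have hi : Injective fun (p : J ⊕ Finset ℕ) (i : ℕ) => φ x p (Sum.inl i) := by
    intro p q hpq
    have h1 : pr x p = pr x q := Set.ext fun i => by simpa [φ] using congrFun hpq i
    rcases p with a | s <;> rcases q with b | t
    · rcases trichotomous_of r a b with h | h | h
      exacts [absurd h1.symm ((hx b).2.1 a h).2, congrArg _ h, absurd h1 ((hx a).2.1 b h).2]
    · exact absurd (show (x a).Finite from (show x a = t from h1) ▸ t.finite_toSet) (hx a).1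
    · exact absurd (show (x b).Finite from (show ↑s = x b from h1) ▸ s.finite_toSet) (hx b).1
    · exact congrArg _ (Finset.coe_injective h1)
  letI : TopologicalSpace (J ⊕ Finset ℕ) := induced (φ x) inferInstance
  have he : IsEmbedding (φ x) := ⟨⟨rfl⟩, fun p q hpq => hi (funext fun i => congrFun hpq _)⟩
  refine ⟨J ⊕ Finset ℕ, inferInstance, he.t35Space, ?_,
    ⟨fun A f hf => ?_⟩, ?_⟩
  · let π : J ⊕ Finset ℕ → ℕ → Bool := fun p i => φ x p (Sum.inl i)
    have hπ : Continuous π := continuous_pi fun i => (continuous_apply _).comp he.continuous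
    let R : C(ℕ → Bool, ℝ) → Cp (J ⊕ Finset ℕ) := fun g => ⟨g ∘ π, g.continuous.comp hπ⟩
    have hR : Continuous R := Continuous.subtype_mk
      (continuous_pi fun p => continuous_eval_const (π p)) _
    refine DenseRange.separableSpace (fun y => mem_closure_iff.2 fun U hU hy => ?_) hR
    obtain ⟨O, hO, rfl⟩ := isOpen_induced_iff.1 hU
    obtain ⟨F, u, h1, h2⟩ := isOpen_pi_iff.1 hO y.1 hy
    have hF := F.finite_toSet.image π
    haveI := hF.to_subtype
    obtain ⟨g, hg⟩ := ContinuousMap.exists_restrict_eq hF.isClosed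
      ⟨fun p => extend π y.1 0 p.1, continuous_of_discreteTopology⟩
    refine ⟨R g, h2 fun p hp => ?_, g, rfl⟩
    have h3 : g (π p) = extend π y.1 0 (π p) := DFunLike.congr_fun hg ⟨π p, p, hp, rfl⟩
    rw [hi.extend_apply] at h3
    exact (show (R g).1 p = y.1 p from h3) ▸ (h1 p hp).2
  · have : ∀ (n : ℕ) (g : A), ∃ O, IsOpen O ∧
        φ x ⁻¹' O = {p | dist (g.1.1 p) (f.1 p) < 1 / ((n : ℝ) + 1)} := fun n g =>
      isOpen_induced_iff.1 (isOpen_lt (g.1.2.dist f.2) continuous_const)
    choose O hO hO' using this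
    obtain ⟨n, g, h1, h2⟩ := gam wo hseg hx O hO fun n E hE => by
      obtain ⟨g, h1, h2⟩ := mem_closure_iff.1 hf
        (⋂ p ∈ E, {g : Cp (J ⊕ Finset ℕ) | dist (g.1 p) (f.1 p) < 1 / ((n : ℝ) + 1)})
        (hE.isOpen_biInter fun p _ => isOpen_lt
          (((continuous_apply p).comp continuous_subtype_val).dist continuous_const)
          continuous_const) (mem_iInter₂.2 fun p _ => by simp; positivity)
      exact ⟨⟨g, h2⟩, fun p hp => by
        rw [← mem_preimage, hO']; exact mem_iInter₂.1 h1 p hp⟩
    refine ⟨fun j => (g j).1, fun j => (g j).2,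
      tendsto_subtype_rng.2 (tendsto_pi_nhds.2 fun p => Metric.tendsto_nhds.2 fun ε hε => ?_)⟩
    obtain ⟨m, hm⟩ := exists_nat_one_div_lt hε
    filter_upwards [h2 p, eventually_ge_atTop m] with j h3 h4
    rw [← mem_preimage, hO'] at h3
    exact lt_trans h3 ((Nat.one_div_le_one_div (h4.trans (h1 j))).trans_lt hm)
  · let δ : J → Cp (J ⊕ Finset ℕ) := fun b => ⟨fun p => if φ x p (Sum.inr b) = true then 1 else 0,
      (continuous_of_discreteTopology (f := fun t : Bool => if t = true then (1 : ℝ) else 0)).comp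
        ((continuous_apply _).comp he.continuous)⟩
    refine ⟨range δ, fun hs => not_countable (α := J) (Pairwise.countable_of_isOpen_disjoint
      (s := fun b => {g : range δ | 0 < g.1.1 (Sum.inl b)}) (fun a b hab => ?_)
      (fun b => isOpen_lt continuous_const ((continuous_apply _).comp
        (continuous_subtype_val.comp continuous_subtype_val)))
      fun b => ⟨⟨δ b, b, rfl⟩, show 0 < (δ b).1 (Sum.inl b) by simp [δ, φ]⟩)⟩
    refine Set.disjoint_left.2 ?_
    rintro ⟨_, c, rfl⟩ h1 h2
    have h3 : ∀ a, 0 < (δ c).1 (Sum.inl a) → a = c := fun a ha => by_contra fun h => by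
      simp [δ, φ, h] at ha
    exact hab ((h3 a h1).trans (h3 b h2).symm)

end Pool.Agent.Results.MP_dfc365_gt.CH
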